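import Pool.Agent.F368.Final

/-!
MP_f368f5_pr: for every dimension `d ≥ 1` and every radius `r > 0`, above the vacancy percolation
threshold every non-anticipating target is detected almost surely by the mobile Poisson nodes.
Together with the listed inequality `lamCrit ≤ lamPast` this answers Q1 in the affirmative.
-/

namespace Pool.Agent.Results.MP_f368f5_pr.PastLeCrit

open Pool.Agent.F368

/-- `lamPast ≤ lamCrit` in every dimension. -/
theorem result (d : ℕ) (r : ℝ) (hd : 1 ≤ d) (hr : 0 < r) : lamPast d r ≤ lamCrit d r :=
  lamPast_le_lamCrit d r hd hr

end Pool.Agent.Results.MP_f368f5_pr.PastLeCrit
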